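import Pool.Agent.H61.KW.TA

/-! EDG: at most two faces of rank 3 contain a given face of rank 2 (MP_c11ac4_gt). -/

set_option autoImplicit false

open Set

namespace Pool.Agent.H54.KW.EDG

open Pool.Agent.H61.KV Pool.Agent.H61.KW

variable {V : Type} [NormedAddCommGroup V] [NormedSpace ℝ V] [FiniteDimensional ℝ V]

/-- a facet functional of a face of rank 4 -/
theorem facet {C : Set V} {q a : V} (hC : IsCC C) (hq : q ∈ C) (hrq : rk C q = 4)
    (haq : a ∈ Fc C q) (hra : rk C a = 3) :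
    ∃ ξ : V →ₗ[ℝ] ℝ, (∀ s ∈ Sp C a, ξ s = 0) ∧ ∀ s ∈ Fc C q, s ∉ Fc C a → 0 < ξ s := by
  have hqa : q ∉ Fc C a := by
    intro h
    have := rk_mono hC (mem_C haq) h
    omega
  obtain ⟨ξ, h1, h2, h3⟩ := supp hC hq haq hqa
  have h4 : ∀ s ∈ Fc C a, ξ s = 0 := by
    rintro s ⟨hs, t, ht, hts⟩
    have h5 : t • a - s ∈ Fc C a := by
      have h6 : (t • a - s) + s ∈ Fc C a := by
        rw [sub_add_cancel]
        exact smul_fc hC (mem_C haq) ht (self hC (mem_C haq))
      exact (face hC (mem_C haq) hts hs h6).1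
    have h7 := h1 _ (tra hC hq haq h5)
    have h8 := h1 _ (tra hC hq haq ⟨hs, t, ht, hts⟩)
    rw [map_sub, map_smul, h2, smul_zero] at h7
    linarith
  have h5 : Sp C a ≤ LinearMap.ker ξ := by
    refine Submodule.span_le.2 ?_
    intro s hs
    exact LinearMap.mem_ker.2 (h4 s hs)
  refine ⟨ξ, fun s hs => LinearMap.mem_ker.1 (h5 hs), fun s hs hsa => ?_⟩
  rcases (h1 s hs).eq_or_lt with h6 | h6
  · exfalso
    apply hsa
    have h7 : Sp C a ≤ Sp C q ⊓ LinearMap.ker ξ := le_inf (sp_mono hC hq haq) h5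
    have h8 : Sp C q ⊓ LinearMap.ker ξ < Sp C q := by
      refine lt_of_le_of_ne inf_le_left fun h => ?_
      have h9 : q ∈ Sp C q ⊓ LinearMap.ker ξ := by
        rw [h]
        exact self_sp hC hq
      have := LinearMap.mem_ker.1 h9.2
      linarith
    have h9 := Submodule.finrank_lt_finrank_of_lt h8
    unfold rk at hrq hra
    have h10 : Sp C a = Sp C q ⊓ LinearMap.ker ξ :=
      Submodule.eq_of_le_of_finrank_le h7 (by omega)
    refine of_sp hC (mem_C haq) (mem_C hs) ?_
    rw [h10]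
    exact ⟨mem_sp hs, LinearMap.mem_ker.2 h6.symm⟩
  · exact h6

theorem pf_EDG : T_EDG := by
  intro V _ _ _ C q e a b c hC hq hrq hre haq hbq hcq hra hrb hrc hea heb hec hba hca hcb
  obtain ⟨ξ, ξ0, ξp⟩ := facet hC hq hrq haq hra
  obtain ⟨η, η0, ηp⟩ := facet hC hq hrq hbq hrb
  obtain ⟨ζ, ζ0, ζp⟩ := facet hC hq hrq hcq hrc
  have hab : a ∉ Fc C b := fun h => hba (of_rk hC (mem_C hbq) h (by omega))
  have hac : a ∉ Fc C c := fun h => hca (of_rk hC (mem_C hcq) h (by omega))
  have hbc : b ∉ Fc C c := fun h => hcb (of_rk hC (mem_C hcq) h (by omega))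
  -- the quotient
  have hE : Sp C e ≤ Sp C q := sp_mono hC hq (tra hC hq haq hea)
  let E' : Submodule ℝ (Sp C q) := (Sp C e).comap (Sp C q).subtype
  have h1 : Module.finrank ℝ E' = 2 := by
    rw [(Submodule.comapSubtypeEquivOfLe hE).finrank_eq]
    exact hre
  have h2 := Submodule.finrank_quotient_add_finrank E'
  have h3 : Module.finrank ℝ (Sp C q) = 4 := hrq
  let v : Fin 3 → (Sp C q) ⧸ E' := ![E'.mkQ ⟨a, mem_sp haq⟩, E'.mkQ ⟨b, mem_sp hbq⟩,
    E'.mkQ ⟨c, mem_sp hcq⟩]
  have h4 : ¬ LinearIndependent ℝ v := by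
    intro h
    have := h.fintype_card_le_finrank
    rw [Fintype.card_fin] at this
    omega
  rw [Fintype.not_linearIndependent_iff] at h4
  obtain ⟨g, hg, i, hi⟩ := h4
  have h5 : g 0 • a + g 1 • b + g 2 • c ∈ Sp C e := by
    have h6 : E'.mkQ (g 0 • ⟨a, mem_sp haq⟩ + g 1 • ⟨b, mem_sp hbq⟩ + g 2 • ⟨c, mem_sp hcq⟩) = 0 := by
      rw [map_add, map_add, map_smul, map_smul, map_smul]
      rw [Fin.sum_univ_three] at hg
      exact hg
    rw [Submodule.mkQ_apply, Submodule.Quotient.mk_eq_zero] at h6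
    exact h6
  have ha := ξ0 _ (sp_mono hC (mem_C haq) hea h5)
  have hb := η0 _ (sp_mono hC (mem_C hbq) heb h5)
  have hc := ζ0 _ (sp_mono hC (mem_C hcq) hec h5)
  have ka := ξ0 a (self_sp hC (mem_C haq))
  have kb := η0 b (self_sp hC (mem_C hbq))
  have kc := ζ0 c (self_sp hC (mem_C hcq))
  simp only [map_add, map_smul, smul_eq_mul, ka, mul_zero, zero_add] at ha
  simp only [map_add, map_smul, smul_eq_mul, kb, mul_zero, add_zero] at hb
  simp only [map_add, map_smul, smul_eq_mul, kc, mul_zero, add_zero] at hc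
  have p1 := ξp b hbq hba
  have p2 := ξp c hcq hca
  have p3 := ηp a haq hab
  have p4 := ηp c hcq hcb
  have p5 := ζp a haq hac
  have p6 := ζp b hbq hbc
  -- signs
  have z0 : g 0 = 0 := by
    rcases lt_trichotomy (g 0) 0 with h | h | h
    · have r1 : 0 < g 2 := by
        by_contra hh
        push Not at hh
        nlinarith
      have r2 : 0 < g 1 := by
        by_contra hh
        push Not at hh
        nlinarith
      nlinarith [mul_pos r1 p2, mul_pos r2 p1]
    · exact h
    · have r1 : g 2 < 0 := by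
        by_contra hh
        push Not at hh
        nlinarith [mul_pos h p3, mul_nonneg hh p4.le]
      have r2 : g 1 < 0 := by
        by_contra hh
        push Not at hh
        nlinarith [mul_pos h p5, mul_nonneg hh p6.le]
      nlinarith [mul_pos (neg_pos.2 r1) p2, mul_pos (neg_pos.2 r2) p1]
  rw [z0, zero_mul, zero_add] at hb hc
  have z2 : g 2 = 0 := by
    rcases mul_eq_zero.1 hb with h | h
    · exact h
    · exact absurd h p4.ne'
  have z1 : g 1 = 0 := by
    rcases mul_eq_zero.1 hc with h | h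
    · exact h
    · exact absurd h p6.ne'
  apply hi
  fin_cases i
  · exact z0
  · exact z1
  · exact z2

end Pool.Agent.H54.KW.EDG
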