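import Pool.Agent.H61.KW.TB

/-! NUH: null-homotopic maps (MP_c11ac4_gt). -/

set_option autoImplicit false

open Topology Set
open Pool.Agent.H59 Pool.Agent.H64.LB Pool.Agent.H61.KU Pool.Agent.H61.KV Pool.Agent.H61.KW
open scoped unitInterval

namespace Pool.Agent.H54.KW.NUH

theorem pf_NUH (hm : T_HM) (con : T_CON) : T_NUH := by
  intro S Y _ _ α H y h0 h1 z
  have hH : α.Homotopic (ContinuousMap.const S y) :=
    ⟨{ toContinuousMap := H, map_zero_left := fun s => h0 s, map_one_left := fun s => h1 s }⟩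
  have e1 := hm (ZMod 2) S Y α (ContinuousMap.const S y) hH 2
  let u : C(S, PUnit.{1}) := ContinuousMap.const S PUnit.unit
  let w : C(PUnit.{1}, Y) := ContinuousMap.const PUnit.{1} y
  have e2 : (ContinuousMap.const S y : C(S, Y)) = w.comp u := rfl
  rw [e1, e2, HH.map_comp]
  have : Subsingleton (HH (ZMod 2) 2 PUnit.{1}) := con (ZMod 2) PUnit.{1} 1
  have e3 : HH.map (ZMod 2) 2 u z = 0 := Subsingleton.elim _ _
  show HH.map (ZMod 2) 2 w (HH.map (ZMod 2) 2 u z) = 0
  rw [e3, map_zero]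

end Pool.Agent.H54.KW.NUH
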